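import Pool.Agent.H99.D2.Fzj
import Pool.Agent.H99.D2.Bxd

/-!
# The sub-box without look-ahead at a record

`box_rec`: in a subclass of the class of a record with a closed slope there is one base label for each
family with natural labels of all windows of the grid over it, and a sub-box of windows without
look-ahead.
-/

set_option autoImplicit false

namespace Pool.PN18

open Finset Real MvPolynomial
open Pool.Agent.H49.Ent Pool.Agent.H32.Dense Pool.STK Pool.KA Pool.KSAT Pool.K2S Pool.PB Pool.GEN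
open Pool.S6C Pool.RCD Pool.LA91 Pool.OWN68 Pool.AJW Pool.AJX Pool.CHT Pool.PKG Pool.ALT
open Pool.CR99 (NzE BlX BlF)
open Pool.LP30 (paQ)
open Pool.TWO28 (PaN)

/-- The points of the box increase. -/
theorem bxv_lt {R₁ : ℝ} {Λ x y : ℕ} (hΛ : 0 < Λ) (h : x < y) : bxv R₁ Λ x < bxv R₁ Λ y := by
  have hΛ' : (0 : ℝ) < Λ := by exact_mod_cast hΛ
  have h' : (x : ℝ) < y := by exact_mod_cast h
  unfold bxv
  have := div_lt_div_of_pos_right h' hΛ'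
  linarith

theorem bxv_mono {R₁ : ℝ} {Λ x y : ℕ} (hΛ : 0 < Λ) (h : x ≤ y) : bxv R₁ Λ x ≤ bxv R₁ Λ y := by
  rcases Nat.eq_or_lt_of_le h with rfl | h
  · exact le_rfl
  · exact (bxv_lt hΛ h).le

/-- **The sub-box without look-ahead at a record.** -/
theorem box_rec {r D Dg : ℕ} (hr : 1 ≤ r) {S : PCl (r + 2)} {al : ℝ} {g₀ : ℝ → ℝ}
    {P : List (Fin (r + 2)) × Fin (r + 2) → ℝ → ℝ → ℝ}
    {θ : ℝ} {P₂ : ℕ → List (Fin (r + 2)) × Fin (r + 2) → ℝ → ℝ → ℝ} {θ₂ Eb e₂ : ℕ → ℝ}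
    {c : ℕ → Fin (r + 2)} {Pt : ℝ → ℝ → ℝ} {rt : ℝ → ℝ} {h K₀ g : ℝ} {L T : ℕ → ℝ → ℝ → ℝ}
    {Sl : ℕ → ℝ} {κ : ℕ → Kg} {G : Set ℝ} {S₀ N : ℕ} {A V : ℕ → ℝ} {S₂ N' : ℕ} {V' : ℕ → ℝ}
    {K' ε q t : ℝ}
    (R : RecG S al g₀ P θ P₂ θ₂ Eb e₂ c Pt rt h K₀ g L T Sl κ G S₀ N A V S₂ N' V' K' ε q t)
    (hκ : ∀ l < r, κ l = .one) {a b R₁ : ℝ} (haE : Sl r = a) (hbE : Sl (r + 1) = b)
    (ha : 1 < a) (hab : a < b) (hR₁ : 0 ≤ R₁) (hε : 0 < ε)
    (hcu : ∀ w ∈ G, ∃ rd : ℕ → ℝ, (∀ l < r + 1, 0 ≤ rd l) ∧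
      Chn S c 0 (r + 1) w w (L r w w) (fun l => L l w w) rd) {e₀ ρ₀ π₀ μ : ℝ} (hμ : 0 < μ)
    (hρ₀ : ρ₀ + μ ≤ 1) (halt : ∀ w ∈ G, |w - g| ≤ μ → AltC S c r L e₀ ρ₀ π₀ μ w)
    (hnear : ∀ x : ℝ, |x| ≤ K' → |t + x * q - g| ≤ μ) (hlab : LabR r D S c L e₀ μ q t N' V')
    -- the closed slope
    {V₀ ρ κ' : ℝ} (hV₀ : V₀ ≤ -(R₁ + 3)) (hV₀in : ∃ j < N', V' j = V₀) (hV₀K : -V₀ + 2 ≤ K')
    (hDg : Dg ≤ D) (hκ' : 0 < κ') (hX : BlX S c r Dg Dg (t + V₀ * q)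
      (L (r + 1) (t + V₀ * q) (t + V₀ * q) - ρ * q) 1 (fun _ => t - R₁ * q)
      (fun _ => L (r + 1) (t - R₁ * q) (t - R₁ * q) - ρ * q)
      (fun _ => L r (t - R₁ * q) (t - R₁ * q) - L (r + 1) (t - R₁ * q) (t - R₁ * q) + ρ * q) κ')
    -- the windows
    {M n Nw : ℕ} (hM : 2 ≤ M) (hNw : 1 ≤ Nw)
    (hW : ∀ k ≤ 2 * (M ^ n * Nw), ∃ j < N', V' j = bxv R₁ (M ^ n * Nw) k)
    (hWt : ∃ j < N', V' j = 0) {X φ kf ℓ e' : ℝ}
    (hWj : ∀ x ≤ M ^ n, ∀ k ≤ r, ∃ j < N', V' j = jfV r (bxv R₁ (M ^ n) x) X k)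
    -- the numbers
    (hX1 : 12 * (R₁ + 2) ≤ X) (hX2 : 32 * (r + 1) * φ ≤ X) (hkf : 3 ^ r * X ≤ kf)
    (hℓ : kf + R₁ + 2 ≤ ℓ) (hℓK : ℓ ≤ K') (hK1 : R₁ + 2 + 3 ^ r * X ≤ K') (hφ0 : 0 < φ)
    (hφ1 : φ ≤ 1 / 8) (hεφ : 2 * ε ≤ φ) (he' : 0 < e') (he1 : e' ≤ φ / 16)
    (hεe : 8 * ε + b / (M ^ n * Nw : ℕ) ≤ e' / 8) (hρe : ρ ≤ e' / 32) (heμ : e' * q ≤ μ / 4)
    {ℓ₁ ℓ₂ ε₁ : ℝ} (hℓ₁ : 0 ≤ ℓ₁) (hℓ₂ : 0 ≤ ℓ₂) (hε₁ : 0 < ε₁)
    (hX3 : a + 1 + ℓ₁ + (2 * ε + e') + 4 * φ ≤ X) (hX4 : b * -V₀ + 4 ≤ X)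
    (h2 : 2 * (2 * ε + e') * (M : ℝ) ^ n < 1)
    (h3 : ((⌊a⌋₊ : ℝ) + 1) * (a + b + 1) + 2 * (ℓ₁ + ℓ₂ + 1) + 1 ≤ ε₁ * n) :
    ∃ S' : PCl (r + 2), S'.Ne ∧
      (∀ (τ : ℝ) (J : ℕ) (F : Fam (r + 2) J) (A : F.Ω → Prop), S'.St τ J F A → S.St τ J F A) ∧
      ∃ (Ψb : Fml (r + 2)) (d : ∀ (J : ℕ) (F : Fam (r + 2) J), LbD F) (pa₁ pa₂ : ℕ → ℝ),
      (∀ (J : ℕ) (F : Fam (r + 2) J) (A B : F.Ω → Prop) (V : Type)
        (z : PtT F → V) (z' : LnT F → V) (G : V → MvPolynomial (Option (Fin (r + 2))) ℝ),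
        Sub B A → Ψb J F A V z z' G → Ψb J F B V z z' G) ∧
      (∀ (J : ℕ) (F : Fam (r + 2) J) (A : F.Ω → Prop) (V : Type) (z : PtT F → V)
        (z' : LnT F → V) (G : V → MvPolynomial (Option (Fin (r + 2))) ℝ), Ψb J F A V z z' G →
        LbOK F ((range (r + 1)).image c) (c (r + 1)) D ⌊e₀ * J⌋₊ J ⌊(t + V₀ * q) * J⌋₊
          ⌊(L r (t + V₀ * q) (t + V₀ * q) + μ / 2) * J⌋₊
          ⌊(L (r + 1) (t + V₀ * q) (t + V₀ * q) - e' * q / 16) * J⌋₊ A z z' G) ∧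
      Bas S' (fun J F A => ∃ (V : Type) (z : PtT F → V) (z' : LnT F → V)
        (G : V → MvPolynomial (Option (Fin (r + 2))) ℝ),
        Sgl (NzE Ψb c r (c (r + 1)) D (t + V₀ * q) (2 * (M ^ n * Nw) + 1)
          (bxg t q R₁ (M ^ n * Nw)) pa₁ pa₂ (fun _ => e₀ - μ / 2)
          (fun k => L r (bxg t q R₁ (M ^ n * Nw) k) (bxg t q R₁ (M ^ n * Nw) k) + μ / 4)
          (fun k => L (r + 1) (bxg t q R₁ (M ^ n * Nw) k) (bxg t q R₁ (M ^ n * Nw) k) -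
            e' * q / 2)) d J F A V z z' G) ∧
      (∀ x ≤ M ^ n, ∃ η : ℝ, RNum S' (fun J F => ptr F J) (vg (bxg t q R₁ (M ^ n) x)) η) ∧
      ∃ s < n, ∃ k < M ^ s, NlB r S' c L d a b R₁ V₀ t q ε e' X φ ℓ₁ ℓ₂ ε₁ M n s k := by
  classical
  have hq := R.q0
  have htm := R.tmc
  have ha0 : 0 < a := by linarith
  have hb0 : 0 < b := by linarith
  have hM0 : 0 < M := by omega
  have hΛ : 0 < M ^ n := pow_pos hM0 n
  have hΛw : 0 < M ^ n * Nw := Nat.mul_pos hΛ (by omega)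
  have hΛr : (0 : ℝ) < ((M ^ n * Nw : ℕ) : ℝ) := by exact_mod_cast hΛw
  have hK'0 : 0 ≤ K' := by
    have h4 : (0 : ℝ) ≤ 3 ^ r * X := by
      have : 0 ≤ X := by linarith
      positivity
    linarith
  have hε0 : 0 ≤ ε * q := (mul_pos hε hq).le
  have he'q : 0 < e' * q := mul_pos he' hq
  have hX0 : 0 < X := by linarith
  -- the windows
  have hwG : ∀ {v : ℝ}, (∃ j < N', V' j = v) → t + v * q ∈ G := by
    rintro v ⟨j, hj, rfl⟩
    exact R.memG.2 j hj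
  have hwA : ∀ {v : ℝ}, (∃ j < N', V' j = v) → AlC S c r D L e₀ μ (t + v * q) := by
    rintro v ⟨j, hj, rfl⟩
    exact (hlab j hj).1
  obtain ⟨W, hWe⟩ : ∃ W : ℕ → ℝ, W = bxv R₁ (M ^ n * Nw) := ⟨_, rfl⟩
  rw [← hWe] at hW
  have hWv : ∀ k, W k = -(R₁ + 2) + (k : ℝ) / ((M ^ n * Nw : ℕ) : ℝ) := fun k => by
    rw [hWe]
    rfl
  obtain ⟨M₁, hM₁⟩ : ∃ M₁ : ℕ, 2 * (M ^ n * Nw) = M₁ + 1 := ⟨2 * (M ^ n * Nw) - 1, by omega⟩
  have hWlast : W (M₁ + 1) = -R₁ := by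
    rw [hWv, ← hM₁]
    push_cast
    have h5 : ((M : ℝ) ^ n * Nw) ≠ 0 := by
      have := hΛr.ne'
      push_cast at this
      exact this
    field_simp
    ring
  have hWm : ∀ k, W k ≤ W (k + 1) := fun k => by
    rw [hWe]
    exact bxv_mono hΛw (Nat.le_succ k)
  have hWlo : ∀ k, -(R₁ + 2) ≤ W k := fun k => by
    rw [hWv]
    have : 0 ≤ (k : ℝ) / ((M ^ n * Nw : ℕ) : ℝ) := by positivity
    linarith
  have hWhi : ∀ k ≤ M₁ + 1, W k ≤ -R₁ := fun k hk => by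
    rw [← hWlast, hWe]
    exact bxv_mono hΛw hk
  have h3X : 0 ≤ 3 ^ r * X := by positivity
  have hWK : ∀ k ≤ M₁ + 1, |W k| ≤ K' := fun k hk => by
    rw [abs_le]
    constructor
    · linarith [hWlo k]
    · linarith [hWhi k hk]
  have hV₀q : t + V₀ * q ≤ t := by
    have : V₀ * q ≤ 0 := mul_nonpos_of_nonpos_of_nonneg (by linarith) hq.le
    linarith
  have hwq : q ≤ t + V₀ * q := by
    have h1 := R.t0
    have h2 : (-V₀ + 2) * q ≤ K' * q := mul_le_mul_of_nonneg_right hV₀K hq.le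
    linarith
  have ht1 : t ≤ 1 := by
    have h1 := R.t1
    have h2 : 0 ≤ K' * q := mul_nonneg hK'0 hq.le
    linarith
  have hstep : ∀ k, b * (W (k + 1) - W k) ≤ b / ((M ^ n * Nw : ℕ) : ℝ) := fun k => by
    rw [hWv, hWv]
    push_cast
    have h5 : ((M : ℝ) ^ n * Nw) ≠ 0 := by
      have := hΛr.ne'
      push_cast at this
      exact this
    refine le_of_eq ?_
    field_simp
    ring
  -- the natural labels of the grid
  obtain ⟨S₁, a1, a2, R₁', p₁, p₂, pa₁, pa₂, a3⟩ := Pool.CR99.nzg_cls (Dg := Dg) R hcu hμ hρ₀ halt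
    hnear (M := M₁) (W := W) (fun k _ => hWm k) hWK
    (fun k hk => hwG (hW k (by omega))) (by rw [haE, hbE]; exact hab.le)
    (ms := b / ((M ^ n * Nw : ℕ) : ℝ)) (e := e' * q) (by rw [hbE]; exact hb0.le)
    (fun k _ => by rw [hbE]; exact hstep k) he'q
    (by
      have h1 : e' * q ≤ 1 * q := mul_le_mul_of_nonneg_right (by linarith) hq.le
      linarith)
    (by
      have h1 := mul_le_mul_of_nonneg_right hεe hq.le
      have h2 : (8 * ε + b / ((M ^ n * Nw : ℕ) : ℝ)) * q = b / ((M ^ n * Nw : ℕ) : ℝ) * q +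
        8 * (ε * q) := by ring
      have h3 : e' / 8 * q = e' * q / 8 := by ring
      rw [h2, h3] at h1
      exact h1)
    heμ (V₀ := V₀) (by linarith [hWlo 0]) (by
      rw [abs_le]
      constructor <;> linarith) (hwG hV₀in) hwq
    (by
      rw [hWlast]
      have : 0 ≤ R₁ * q := mul_nonneg hR₁ hq.le
      linarith)
    (hwA hV₀in) (fun k hk => hwA (hW k (by omega))) hDg hκ'
    (by
      have h1 := mul_le_mul_of_nonneg_right hρe hq.le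
      have h3 : e' / 32 * q = e' * q / 32 := by ring
      rw [h3] at h1
      exact h1)
    (by
      rw [hWlast]
      have e1 : t + -R₁ * q = t - R₁ * q := by ring
      rw [e1]
      exact hX)
  obtain ⟨Ψb, hΨb⟩ : ∃ Ψb : Fml (r + 2), Ψb = BlF c r D D e₀
      (L r (t + V₀ * q) (t + V₀ * q) + μ / 2)
      (L (r + 1) (t + V₀ * q) (t + V₀ * q) - e' * q / 16) (t + V₀ * q) 1
      (fun _ => t + W (M₁ + 1) * q)
      (fun _ => L (r + 1) (t + W (M₁ + 1) * q) (t + W (M₁ + 1) * q) - ρ * q)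
      (fun _ => L r (t + W (M₁ + 1) * q) (t + W (M₁ + 1) * q) -
        L (r + 1) (t + W (M₁ + 1) * q) (t + W (M₁ + 1) * q) + ρ * q) := ⟨_, rfl⟩
  rw [← hΨb] at a3
  have hΨs : ∀ (J : ℕ) (F : Fam (r + 2) J) (A B : F.Ω → Prop) (V : Type)
      (z : PtT F → V) (z' : LnT F → V) (G : V → MvPolynomial (Option (Fin (r + 2))) ℝ),
      Sub B A → Ψb J F A V z z' G → Ψb J F B V z z' G := by
    rw [hΨb]
    exact fun J F A B V z z' G => BlF.hs J F A B V z z' G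
  have hΨl : ∀ (J : ℕ) (F : Fam (r + 2) J) (A : F.Ω → Prop) (V : Type)
      (z : PtT F → V) (z' : LnT F → V) (G : V → MvPolynomial (Option (Fin (r + 2))) ℝ),
      Ψb J F A V z z' G →
      LbOK F ((range (r + 1)).image c) (c (r + 1)) D ⌊e₀ * J⌋₊ J ⌊(t + V₀ * q) * J⌋₊
        ⌊(L r (t + V₀ * q) (t + V₀ * q) + μ / 2) * J⌋₊
        ⌊(L (r + 1) (t + V₀ * q) (t + V₀ * q) - e' * q / 16) * J⌋₊ A z z' G := by
    rw [hΨb]
    exact fun J F A V z z' G h => h.1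
  have hex : Bas S₁ (fun J F A => ∃ (V : Type) (z : PtT F → V) (z' : LnT F → V)
      (G : V → MvPolynomial (Option (Fin (r + 2))) ℝ),
      NzE Ψb c r (c (r + 1)) D (t + V₀ * q) (M₁ + 2) (fun k => t + W k * q) pa₁ pa₂
        (fun _ => e₀ - μ / 2) (fun k => L r (t + W k * q) (t + W k * q) + μ / 4)
        (fun k => L (r + 1) (t + W k * q) (t + W k * q) - e' * q / 2) J F A V z z' G) := by
    refine Bas.mono 0 a3 ?_
    rintro J - F A ⟨V, z, z', G, V₀', V₁, V₂, z₀, z₀', G₀, P₁, z₁, z₁', G₁, P₂', z₂, z₂', H, f, h1,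
      h2, h3⟩
    exact ⟨V₀', z₀, z₀', G₀, h1⟩
  -- one label for each family
  obtain ⟨S₂', d, b1, b2, b3⟩ := frz a1 (fun J F A B V z z' G hB h => NzE.hs hΨs J F A B V z z' G
    hB h) hex
  have R₂ := R₁'.sub b1 b2
  -- the numbers of the records
  have hcnt : ∀ i : ℕ, Bas S₂' (fun J F A => (cnt F.p (ptr F J) A : ℝ) ≤
      Real.exp ((4 * (r + 2 : ℕ) + 1) * J)) := by
    intro i
    obtain ⟨s', d', e'', K₁, N₁, hC⟩ := R₂.clx
    exact Bas.mono 0 hC.cnt fun J _ F A h => h J le_rfl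
  obtain ⟨S₃, c1, c2, c3⟩ := Pool.RCD.ext_rec b1 R₂.pos (fun _ J F => PtT F) (fun _ J F => LnT F)
    (fun _ J F => ptr F J) (fun x J F => vg (bxg t q R₁ (M ^ n) x) J F)
    (fun _ => (4 * (r + 2 : ℕ) + 1)) hcnt
  have R₃ := R₂.sub c1 c2
  have hsub3 : ∀ (τ : ℝ) (J : ℕ) (F : Fam (r + 2) J) (A : F.Ω → Prop), S₃.St τ J F A →
      S.St τ J F A := fun τ J F A h => a2 τ J F A (b2 τ J F A (c2 τ J F A h))
  have hch : ChG S c (r + 1) (fun l w => L l w w) G := ⟨fun w hw => by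
    obtain ⟨rd, h1, h2⟩ := hcu w hw
    exact ⟨_, rd, h1, h2⟩⟩
  have hch3 := hch.sub hsub3
  -- the points of the box
  obtain ⟨e0, he0⟩ : ∃ e0 : ℝ, e0 = (2 * ε + e') * q := ⟨_, rfl⟩
  have he00 : 0 ≤ e0 := by
    rw [he0]
    positivity
  have hφq : 0 < φ * q := mul_pos hφ0 hq
  have hεφq : 2 * (ε * q) ≤ φ * q := by
    have := mul_le_mul_of_nonneg_right hεφ hq.le
    linarith
  have hvm : ∀ x ≤ M ^ n, -(R₁ + 2) ≤ bxv R₁ (M ^ n) x ∧ bxv R₁ (M ^ n) x ≤ -(R₁ + 1) :=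
    fun x hx => bxv_mem hΛ hx
  have hvK : ∀ x ≤ M ^ n, |bxv R₁ (M ^ n) x| ≤ K' := fun x hx => by
    obtain ⟨h1, h2⟩ := hvm x hx
    rw [abs_le]
    constructor <;> linarith
  have hvV : |V₀| ≤ K' := by
    rw [abs_le]
    constructor <;> linarith
  have hgd : ∀ x y, bxg t q R₁ (M ^ n) x - bxg t q R₁ (M ^ n) y =
      (bxv R₁ (M ^ n) x - bxv R₁ (M ^ n) y) * q := fun x y => by
    unfold bxg
    ring
  have hgm : ∀ x y, x < y → y ≤ M ^ n → bxg t q R₁ (M ^ n) x < bxg t q R₁ (M ^ n) y :=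
    fun x y hxy _ => by
      have h1 := mul_pos (sub_pos.2 (bxv_lt (R₁ := R₁) hΛ hxy)) hq
      rw [← hgd] at h1
      linarith
  have hgle : ∀ x y, x ≤ y → bxg t q R₁ (M ^ n) x ≤ bxg t q R₁ (M ^ n) y := fun x y hxy => by
    have h1 := mul_nonneg (sub_nonneg.2 (bxv_mono (R₁ := R₁) hΛ hxy)) hq.le
    rw [← hgd] at h1
    linarith
  have hgt : ∀ x ≤ M ^ n, bxg t q R₁ (M ^ n) x ≤ t := fun x hx => by
    have h1 : bxv R₁ (M ^ n) x * q ≤ 0 :=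
      mul_nonpos_of_nonpos_of_nonneg (by linarith [(hvm x hx).2]) hq.le
    unfold bxg
    linarith
  have hwin : ∀ x ≤ M ^ n, ∃ j < N', V' j = bxv R₁ (M ^ n) x := fun x hx => by
    obtain ⟨j, hj, e⟩ := hWj x hx 0 (Nat.zero_le _)
    rw [jfV_zero] at e
    exact ⟨j, hj, e⟩
  have hgG : ∀ x ≤ M ^ n, bxg t q R₁ (M ^ n) x ∈ G := fun x hx => hwG (hwin x hx)
  have hfin : ∀ x, bxg t q R₁ (M ^ n) x = t + W (x * Nw) * q := fun x => by
    rw [hWe, bxv_fine (by omega)]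
    rfl
  have hsl : ∀ l < r, Sl l = 1 := fun l hl => by
    have h2 := R.kd l (by omega)
    rw [hκ l hl] at h2
    exact h2
  have hflr : ∀ l < r, ∀ x ≤ M ^ n, ∀ y ≤ M ^ n,
      |L l (bxg t q R₁ (M ^ n) x) (bxg t q R₁ (M ^ n) x) -
        L l (bxg t q R₁ (M ^ n) y) (bxg t q R₁ (M ^ n) y) -
        (bxg t q R₁ (M ^ n) x - bxg t q R₁ (M ^ n) y)| ≤ 2 * (ε * q) := fun l hl x hx y hy => by
    have h1 := R.dL2 (l := l) (by omega) (hvK x hx) (hvK y hy)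
    rw [hsl l hl, one_mul] at h1
    rw [hgd]
    exact h1
  have hsr : ∀ x ≤ M ^ n, ∀ y ≤ M ^ n,
      |L r (bxg t q R₁ (M ^ n) x) (bxg t q R₁ (M ^ n) x) -
        L r (bxg t q R₁ (M ^ n) y) (bxg t q R₁ (M ^ n) y) -
        a * (bxg t q R₁ (M ^ n) x - bxg t q R₁ (M ^ n) y)| ≤ 2 * (ε * q) := fun x hx y hy => by
    have h1 := R.dL2 (l := r) (by omega) (hvK x hx) (hvK y hy)
    rw [haE] at h1
    rw [hgd]
    exact h1
  have hs1 : ∀ x ≤ M ^ n, ∀ y ≤ M ^ n,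
      |L (r + 1) (bxg t q R₁ (M ^ n) x) (bxg t q R₁ (M ^ n) x) -
        L (r + 1) (bxg t q R₁ (M ^ n) y) (bxg t q R₁ (M ^ n) y) -
        b * (bxg t q R₁ (M ^ n) x - bxg t q R₁ (M ^ n) y)| ≤ 2 * (ε * q) := fun x hx y hy => by
    have h1 := R.dL2 (l := r + 1) (by omega) (hvK x hx) (hvK y hy)
    rw [hbE] at h1
    rw [hgd]
    exact h1
  obtain ⟨C, hC⟩ : ∃ C : ℕ → ℝ, C = bxC r L (bxg t q R₁ (M ^ n) 0) (X * q) (φ * q) := ⟨_, rfl⟩
  have hJ : ∀ x ≤ M ^ n, JfN r (fun l w => L l w w) G (bxg t q R₁ (M ^ n) x) t (X * q) (φ * q)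
      (ℓ * q) (kf * q) (fun i => t + jfV r (bxv R₁ (M ^ n) x) X (i + 1) * q) 0 := fun x hx => by
    obtain ⟨h1, h3⟩ := hvm x hx
    have hV0 : 0 < -bxv R₁ (M ^ n) x := by linarith
    refine R.jf hκ (by omega) ?_ ?_ (fun k hk => hwG (hWj x hx k hk)) (by linarith) hℓK
      hεφ
    · refine ⟨by linarith, hφ0, ?_, hX2, hkf, by linarith⟩
      push_cast
      linarith
    · have h5 := hwG hWt
      rw [zero_mul, add_zero] at h5
      exact h5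
  have hPa : ∀ x ≤ M ^ n, PaN r (fun l w => L l w w) (bxg t q R₁ (M ^ n) x) (X * q) (φ * q)
      (fun l => C l + bxg t q R₁ (M ^ n) x) C := fun x hx => by
    have h4 : 32 * (r + 1) * φ * q ≤ X * q := mul_le_mul_of_nonneg_right hX2 hq.le
    have h5 : (32 * (r + 1) * φ) * q = 32 * (φ * q) + 32 * (r * (φ * q)) := by ring
    have h6 : 0 ≤ (r : ℝ) * (φ * q) := by positivity
    have key : ∀ l < r, nX r (fun l w => L l w w) (bxg t q R₁ (M ^ n) x) (X * q) l + φ * q ≤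
        C l + bxg t q R₁ (M ^ n) x ∧ C l + bxg t q R₁ (M ^ n) x ≤
        nX r (fun l w => L l w w) (bxg t q R₁ (M ^ n) x) (X * q) l + X * q / 2 := by
      intro l hl
      have h7 := abs_le.1 (hflr l hl x hx 0 (Nat.zero_le _))
      rw [hC]
      unfold bxC nX
      constructor
      · linarith [h7.1, h7.2]
      · linarith [h7.1, h7.2]
    exact ⟨fun l hl => (key l hl).1, fun l hl => (key l hl).1, fun l hl => (key l hl).2,
      fun l hl => (key l hl).2⟩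
  -- the base label
  have hd : Pool.PN18.LbF S₃ d ((range (r + 1)).image c) (c (r + 1)) D e₀
      (L r (t + V₀ * q) (t + V₀ * q) + μ / 2) (t + V₀ * q)
      (L (r + 1) (t + V₀ * q) (t + V₀ * q) - e' * q / 16) := by
    refine Bas.mono 0 (b3.sub c2) ?_
    rintro J - F A ⟨V, z, z', G, h⟩
    exact hΨl J F A _ _ _ _ h.at.1
  have hwn : ∀ x, t + V₀ * q ≤ bxg t q R₁ (M ^ n) x := fun x => by
    have h1 : V₀ * q ≤ bxv R₁ (M ^ n) x * q := mul_le_mul_of_nonneg_right (by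
      have : 0 ≤ (x : ℝ) / ((M ^ n : ℕ) : ℝ) := by positivity
      unfold bxv
      linarith) hq.le
    unfold bxg
    linarith
  have hlow : ∀ l ≤ r + 1, t + V₀ * q ≤ L l (t + V₀ * q) (t + V₀ * q) := fun l hl =>
    R.low_at (by omega) (by linarith) le_rfl (by linarith)
  obtain ⟨p₂', hp₂⟩ : ∃ p₂' : ℝ, p₂' = L (r + 1) (bxg t q R₁ (M ^ n) 0) (bxg t q R₁ (M ^ n) 0) :=
    ⟨_, rfl⟩
  have h0M : (0 : ℕ) ≤ M ^ n := Nat.zero_le _
  have he'1 : e' * q ≤ φ * q / 16 := by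
    have := mul_le_mul_of_nonneg_right he1 hq.le
    linarith
  have hφq1 : φ * q ≤ q / 8 := by
    have := mul_le_mul_of_nonneg_right hφ1 hq.le
    linarith
  have hND : ∀ y x, y ≤ x → x ≤ M ^ n → ∀ j : ℕ, (j : ℝ) ≤ b →
      Few S₃ (fun J F => ptr F J) (vg (bxg t q R₁ (M ^ n) x)) (fun _ F => F.T)
        (paQ (r + 2) c r (bxg t q R₁ (M ^ n) y) (fun l => L l (bxg t q R₁ (M ^ n) y)
          (bxg t q R₁ (M ^ n) y)) (fun l => C l + bxg t q R₁ (M ^ n) y) C)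
        (qD (r + 2) d (c (r + 1)) j (t + V₀ * q) (dgn p₂' (bxg t q R₁ (M ^ n) 0) b j
          (bxg t q R₁ (M ^ n) x) e0)) := by
    intro y x hyx hx j _
    have hy := hyx.trans hx
    obtain ⟨pt, hpt⟩ : ∃ pt : ℝ, pt = p₂' + b * (bxg t q R₁ (M ^ n) x -
      bxg t q R₁ (M ^ n) 0) - e0 := ⟨_, rfl⟩
    have e1 : dgn p₂' (bxg t q R₁ (M ^ n) 0) b j (bxg t q R₁ (M ^ n) x) e0 =
        pt - j * bxg t q R₁ (M ^ n) x := by
      rw [hpt]
      unfold dgn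
      ring
    rw [e1]
    have hle1 := (abs_le.1 (hs1 x hx 0 h0M)).1
    have hle0 : e0 = 2 * (ε * q) + e' * q := by
      rw [he0]
      ring
    have hptL : pt ≤ L (r + 1) (bxg t q R₁ (M ^ n) x) (bxg t q R₁ (M ^ n) x) - e' * q := by
      rw [hpt, hp₂, hle0]
      linarith
    have hdn : b * (bxg t q R₁ (M ^ n) x - (t + V₀ * q)) ≤ b * -V₀ * q := by
      have h1 : bxg t q R₁ (M ^ n) x - (t + V₀ * q) ≤ -V₀ * q := by
        linarith [hgt x hx]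
      calc b * (bxg t q R₁ (M ^ n) x - (t + V₀ * q)) ≤ b * (-V₀ * q) :=
            mul_le_mul_of_nonneg_left h1 hb0.le
        _ = b * -V₀ * q := by ring
    have hLn : L (r + 1) (bxg t q R₁ (M ^ n) x) (bxg t q R₁ (M ^ n) x) ≤
        L (r + 1) (t + V₀ * q) (t + V₀ * q) + b * -V₀ * q + 2 * (ε * q) := by
      have h1 := (abs_le.1 (R.dL2 (l := r + 1) (by omega) (hvK x hx) hvV)).2
      rw [hbE] at h1
      have h2 : b * ((bxv R₁ (M ^ n) x - V₀) * q) =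
          b * (bxg t q R₁ (M ^ n) x - (t + V₀ * q)) := by
        unfold bxg
        ring
      rw [h2] at h1
      have h3 : bxg t q R₁ (M ^ n) x = t + bxv R₁ (M ^ n) x * q := rfl
      rw [← h3] at h1
      linarith
    have hX4q : b * -V₀ * q + 4 * q ≤ X * q := by
      have := mul_le_mul_of_nonneg_right hX4 hq.le
      linarith
    have hgy : bxg t q R₁ (M ^ n) x - bxg t q R₁ (M ^ n) y ≤ q := by
      rw [hgd]
      have h1 : bxv R₁ (M ^ n) x - bxv R₁ (M ^ n) y ≤ 1 := by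
        linarith [(hvm x hx).2, (hvm y hy).1]
      linarith [mul_le_mul_of_nonneg_right h1 hq.le]
    have hn0 := hlow (r + 1) le_rfl
    have hb3 : 0 ≤ b * -V₀ * q := mul_nonneg (mul_nonneg hb0.le (by linarith)) hq.le
    have hgx0 : t + V₀ * q ≤ bxg t q R₁ (M ^ n) 0 := hwn 0
    have hp2low : bxg t q R₁ (M ^ n) 0 ≤ p₂' := by
      rw [hp₂]
      exact R.low_at (by omega) (by linarith) le_rfl (by linarith [hgt 0 h0M])
    have hbx0 : 0 ≤ b * (bxg t q R₁ (M ^ n) x - bxg t q R₁ (M ^ n) 0) :=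
      mul_nonneg hb0.le (by linarith [hgle 0 x (Nat.zero_le x)])
    refine nat_few (Pn := L (r + 1) (t + V₀ * q) (t + V₀ * q) - e' * q / 16)
      (sn := fun l w => L l w w) R₃.tmc hr (hJ y hy) hch3 (hgG x hx) (hgle y x hyx) (hgt x hx)
      (fun l hl => (hflr l hl x hx y hy).trans hεφq) (hPa y hy) hΨl (hwn x) (b3.sub c2)
      (k := x * Nw) (by
        have h1 : x * Nw ≤ M ^ n * Nw := Nat.mul_le_mul_right _ hx
        omega) (hfin x).symm ?_ ?_ ?_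
    · show pt ≤ L (r + 1) (t + W (x * Nw) * q) (t + W (x * Nw) * q) - e' * q / 2
      rw [← hfin]
      linarith
    · refine lt_min (by linarith) ?_
      rw [hpt, hle0]
      linarith
    · have h5 : pt + 3 * (φ * q) + (bxg t q R₁ (M ^ n) x - bxg t q R₁ (M ^ n) y) ≤ pt + X * q := by
        linarith
      have h6 : pt + 3 * (φ * q) + (bxg t q R₁ (M ^ n) x - bxg t q R₁ (M ^ n) y) ≤
          L (r + 1) (t + V₀ * q) (t + V₀ * q) - e' * q / 16 + X * q := by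
        linarith
      rcases le_total (L (r + 1) (t + V₀ * q) (t + V₀ * q) - e' * q / 16) pt with h7 | h7
      · rw [min_eq_left h7]
        exact h6
      · rw [min_eq_right h7]
        exact h5
  have hq1 : bxg t q R₁ (M ^ n) (M ^ n) - bxg t q R₁ (M ^ n) 0 = q := by
    rw [hgd]
    have h5 : ((M ^ n : ℕ) : ℝ) ≠ 0 := by exact_mod_cast hΛ.ne'
    unfold bxv
    rw [div_self h5]
    push_cast
    ring
  have hii : ∀ i : Fin (⌊a⌋₊ + 1), ((i : ℕ) : ℝ) ≤ a := fun i =>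
    (Nat.cast_le.2 (Nat.lt_succ_iff.1 i.2)).trans (Nat.floor_le ha0.le)
  have hjj : ∀ i : Fin (⌊a⌋₊ + 1), ((⌊((i : ℕ) : ℝ) * b / a⌋₊ : ℕ) : ℝ) ≤ b := fun i => by
    refine (Nat.floor_le (by positivity)).trans ?_
    rw [div_le_iff₀ ha0]
    have := mul_le_mul_of_nonneg_right (hii i) hb0.le
    linarith
  obtain ⟨S₄, d1, d2, s, hs, k, hk, d3⟩ := box_cls (p := ⌊a⌋₊ + 1) hM c1 R₃.pos R₃.tmc hr hch3
    (g := bxg t q R₁ (M ^ n)) hgm (hgt (M ^ n) le_rfl) hJ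
    (fun x hx y hy l hl => (hflr l hl x hx y hy).trans hεφq) (fun x _ => c3 x) hPa hd
    (a := a) (b := b) (p₂ := p₂') (e₀ := e0) ha0.le hb0.le he00
    (fun x hx => (hsr x hx 0 h0M).trans (by rw [he0]; linarith)) hND
    (ii := fun i => (i : ℕ)) (jj := fun i => ⌊((i : ℕ) : ℝ) * b / a⌋₊)
    hii hjj (i₀ := ⌊a⌋₊) (j₀ := ⌊b⌋₊) (Nat.floor_le ha0.le)
    (Nat.floor_le hb0.le) (q := q) (C₁ := a + b + 1) (C₂ := ℓ₁ + ℓ₂ + 1) (ε₁ := ε₁) (ℓ₁ := ℓ₁)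
    (ℓ₂ := ℓ₂) hq (by linarith) (by linarith) hε₁ hℓ₁ hℓ₂
    (by
      rw [hq1, he0]
      have h1 := mul_le_mul_of_nonneg_right hX3 hq.le
      linarith)
    (by
      rw [hq1]
      linarith)
    (by
      rw [he0]
      have h1 := mul_lt_mul_of_pos_right h2 hq
      linarith)
    (by
      push_cast
      exact h3)
  refine ⟨S₄, d1, fun τ J F A h => hsub3 τ J F A (d2 τ J F A h), Ψb, d, pa₁, pa₂, hΨs, hΨl, ?_,
    fun x _ => ?_, s, hs, k, hk, ?_⟩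
  · have h1 := (b3.sub c2).sub d2
    rw [hM₁, hWe] at *
    exact h1
  · obtain ⟨η, hη⟩ := c3 x
    exact ⟨η, hη.sub d2⟩
  · intro l u hl hu α β γ hαβ hβγ hγM g₁ v w o hg₁ hv hw ho i j hij
    obtain ⟨D1, D2⟩ := d3 l u hl hu α β γ hαβ hβγ hγM
    subst hg₁ hv hw ho
    rw [hp₂, hC, he0] at D1
    rw [hp₂, hC] at D2
    refine ⟨fun hia => ?_, fun hia => ?_⟩
    · have h4 := D1 ⟨i, Nat.lt_succ_iff.2 (Nat.le_floor hia)⟩
      have e1 : ⌊((i : ℕ) : ℝ) * b / a⌋₊ = j := by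
        rw [hij, mul_div_assoc, div_self ha0.ne', mul_one, Nat.floor_natCast]
      simp only [e1] at h4
      exact h4
    · have e1 : ⌊a⌋₊ = i := by rw [← hia, Nat.floor_natCast]
      have e2 : ⌊b⌋₊ = j := by
        have h5 : b = j := by
          rw [hia] at hij
          have h6 : a * b = a * j := by rw [hij]; ring
          exact mul_left_cancel₀ ha0.ne' h6
        rw [h5, Nat.floor_natCast]
      rw [e1, e2] at D2
      exact D2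

end Pool.PN18
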